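import Pool.Agent.Helper79.SA.Goals

/-!
# MP_4137ca_lc: packet PUL (pulling back a measurable set)
-/

open MeasureTheory Filter Topology Set

noncomputable section

namespace SA.PkPUL

theorem mp_continuous (p : Mp) : Continuous p.f := by
  refine continuous_pi fun i => ?_
  refine IsLocallyConstant.continuous ?_
  rw [IsLocallyConstant.iff_eventually_eq]
  intro x
  have h1 : ∀ᶠ y in 𝓝 x, ∀ k ∈ Finset.range (i + 1), y k = x k := by
    rw [Filter.eventually_all_finset]
    intro k _
    have hk : Continuous fun y : Rl => y k := continuous_apply k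
    exact hk.continuousAt.eventually (eventually_of_mem (IsOpen.mem_nhds (isOpen_discrete {x k})
      rfl) fun y hy => hy)
  filter_upwards [h1] with y hy
  exact p.lip (i + 1) y x (fun k hk => hy k (Finset.mem_range.2 hk)) i (Nat.lt_succ_self i)

theorem jn_measurable : Measurable fun z : Rl × Rl => (jn z.1).f z.2 := by
  refine measurable_pi_iff.2 fun i => ?_
  by_cases h : i % 2 = 0
  · have h1 : (fun z : Rl × Rl => (jn z.1).f z.2 i) = fun z => z.1 (i / 2) := by
      funext z
      simp [jn, h]
    rw [h1]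
    exact (measurable_pi_apply (i / 2)).comp measurable_fst
  · have h1 : (fun z : Rl × Rl => (jn z.1).f z.2 i) = fun z => z.2 (i / 2) := by
      funext z
      simp [jn, h]
    rw [h1]
    exact (measurable_pi_apply (i / 2)).comp measurable_snd

theorem exists_index (K : Type) [Infinite K] (b : Set K) (hb : b.Countable) :
    ∃ j : ℕ → K, Function.Injective j ∧ b ⊆ Set.range j := by
  let c : Set K := b ∪ Set.range (Infinite.natEmbedding K)
  have hc : c.Countable := hb.union (Set.countable_range _)
  have hi : c.Infinite := by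
    refine Set.Infinite.mono (Set.subset_union_right) ?_
    exact Set.infinite_range_of_injective (Infinite.natEmbedding K).injective
  haveI : Countable c := hc.to_subtype
  haveI : Infinite c := hi.to_subtype
  obtain ⟨hd⟩ := nonempty_denumerable c
  let e : ℕ ≃ c := (Denumerable.eqv c).symm
  refine ⟨fun i => (e i).1, fun i k h => e.injective (Subtype.ext h), fun x hx => ?_⟩
  exact ⟨e.symm ⟨x, Or.inl hx⟩, by simp⟩

theorem pul (sup_ : G_SUP) : G_PUL := by
  classical
  intro K hK q ξ Z hZ
  -- the support of `Z`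
  have hmeas : Measurable fun z : K → Rl => (fun _ : ℕ => decide (z ∈ Z)) := by
    refine measurable_pi_iff.2 fun i => ?_
    refine measurable_to_bool ?_
    have : (fun z : K → Rl => decide (z ∈ Z)) ⁻¹' {true} = Z := by
      ext z
      simp
    rw [this]
    exact hZ
  obtain ⟨b, hb, hbz⟩ := sup_ K _ hmeas
  have hbZ : ∀ z z' : K → Rl, (∀ c ∈ b, z c = z' c) → (z ∈ Z ↔ z' ∈ Z) := by
    intro z z' h
    have h1 := congrFun (hbz z z' h) 0
    simpa using h1
  obtain ⟨j, hj, hbj⟩ := exists_index K (b ∪ {ξ}) (hb.union (Set.countable_singleton ξ))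
  obtain ⟨i0, hi0⟩ : ξ ∈ Set.range j := hbj (Or.inr rfl)
  let zz : Rl → (ℕ → Rl) → K → Rl := fun u y =>
    Function.update (Function.extend j y (fun _ _ => false)) ξ ((jn u).f (y i0))
  have hzz : Measurable fun w : Rl × (ℕ → Rl) => q.ac (zz w.1 w.2) := by
    refine measurable_pi_iff.2 fun c => ?_
    refine (mp_continuous (q.m c)).measurable.comp ?_
    by_cases hc : c = ξ
    · subst hc
      have h1 : (fun w : Rl × (ℕ → Rl) => zz w.1 w.2 c) =
          fun w => (jn w.1).f (w.2 i0) := by
        funext w
        simp [zz]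
      rw [h1]
      exact jn_measurable.comp (measurable_fst.prodMk
        ((measurable_pi_apply i0).comp measurable_snd))
    · by_cases hcj : ∃ i, j i = c
      · obtain ⟨i, rfl⟩ := hcj
        have h1 : (fun w : Rl × (ℕ → Rl) => zz w.1 w.2 (j i)) = fun w => w.2 i := by
          funext w
          simp only [zz]
          rw [Function.update_of_ne hc, hj.extend_apply]
        rw [h1]
        exact (measurable_pi_apply i).comp measurable_snd
      · have h1 : (fun w : Rl × (ℕ → Rl) => zz w.1 w.2 c) = fun w => (fun _ => false) := by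
          funext w
          simp only [zz]
          rw [Function.update_of_ne hc, Function.extend_apply' _ _ _ hcj]
        rw [h1]
        exact measurable_const
  refine ⟨{w | q.ac (zz w.1 w.2) ∈ Z}, hzz hZ, fun u g => ?_⟩
  let gm : K → Mp := Function.update (Function.extend j g.m (fun _ => 1)) ξ (jn u * g.m i0)
  have hgct : {c | gm c ≠ 1}.Countable := by
    refine (Set.countable_range j).mono fun c hc => ?_
    by_contra hcj
    have hcξ : c ≠ ξ := fun h => hcj (h ▸ ⟨i0, hi0⟩)
    refine hc ?_
    simp only [gm]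
    rw [Function.update_of_ne hcξ, Function.extend_apply' _ _ _ hcj]
  let g' : Cnd K := ⟨gm, hgct⟩
  have hkey : ∀ z'' : K → Rl, (q * g').ac z'' ∈ Z ↔
      (u, g.ac fun i => z'' (j i)) ∈ {w : Rl × (ℕ → Rl) | q.ac (zz w.1 w.2) ∈ Z} := by
    intro z''
    rw [Cnd.mul_ac]
    refine hbZ _ _ fun c hc => ?_
    have hcj := hbj (Or.inl hc)
    show (q.m c).f (g'.ac z'' c) = (q.m c).f (zz u (g.ac fun i => z'' (j i)) c)
    congr 1
    show (gm c).f (z'' c) = zz u (g.ac fun i => z'' (j i)) c
    by_cases hcξ : c = ξ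
    · subst hcξ
      simp only [gm, zz, Function.update_self, Mp.mul_f, Cnd.ac]
      rw [hi0]
    · obtain ⟨i, rfl⟩ := hcj
      simp only [gm, zz]
      rw [Function.update_of_ne hcξ, Function.update_of_ne hcξ, hj.extend_apply,
        hj.extend_apply]
      rfl
  refine ⟨q * g', Cnd.mul_le q g', ?_, ?_, ?_⟩
  · rintro _ ⟨z'', rfl⟩
    refine ⟨(g.m i0).f (z'' ξ), ?_⟩
    show (q.m ξ).f ((gm ξ).f (z'' ξ)) = _
    simp only [gm, Function.update_self, Mp.mul_f]
  · rintro h _ ⟨z'', rfl⟩
    exact (hkey z'').2 (h _ ⟨_, rfl⟩)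
  · rintro h _ ⟨z'', rfl⟩ hz
    exact h _ ⟨_, rfl⟩ ((hkey z'').1 hz)

end SA.PkPUL
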